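import Mathlib
import Pool.Agent.R331.SM.NonArch

set_option autoImplicit false

namespace Pool.Agent.R331.SM

open Finset

section
variable {K : Type} [Field K]

/-- Quasi absolute values. -/
structure Quasi (ν : K →*₀ ℝ) (A : ℝ) : Prop where
  one_le : 1 ≤ A
  nonneg : ∀ x, 0 ≤ ν x
  add_le : ∀ x y, ν (x + y) ≤ A * max (ν x) (ν y)

variable {ν : K →*₀ ℝ} {A : ℝ}

lemma Quasi.sum_le (h : Quasi ν A) (k : ℕ) : ∀ (f : ℕ → K) (M : ℝ),
    (∀ i < 2 ^ k, ν (f i) ≤ M) → ν (∑ i ∈ range (2 ^ k), f i) ≤ A ^ k * M := by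
  induction k with
  | zero =>
    intro f M hM
    simpa using hM 0 (by norm_num)
  | succ k ih =>
    intro f M hM
    rw [pow_succ, mul_two, Finset.sum_range_add]
    have h1 := ih f M (fun i hi => hM i (by rw [pow_succ]; omega))
    have h2 := ih (fun i => f (2 ^ k + i)) M (fun i hi => hM _ (by rw [pow_succ]; omega))
    refine (h.add_le _ _).trans ?_
    rw [pow_succ, mul_comm (A ^ k) A, mul_assoc]
    exact mul_le_mul_of_nonneg_left (max_le h1 h2) (zero_le_one.trans h.one_le)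

lemma growth (r B A : ℝ) (hr : 1 < r) (hA : 1 ≤ A) :
    ∃ k : ℕ, B * A ^ k < r ^ (2 ^ k - 1) := by
  obtain ⟨m, hm⟩ := pow_unbounded_of_one_lt (2 * A) hr
  obtain ⟨b, hb⟩ := exists_nat_gt B
  set j := max (2 * m) b with hj
  refine ⟨2 * j, ?_⟩
  have hjm : 2 * m ≤ j := le_max_left _ _
  have hjb : b ≤ j := le_max_right _ _
  have h1 : j + 1 ≤ 2 ^ j := Nat.succ_le_of_lt Nat.lt_two_pow_self
  have h2 : m * (2 * j) + 1 ≤ 2 ^ (2 * j) := by
    have : 2 ^ (2 * j) = 2 ^ j * 2 ^ j := by rw [two_mul, pow_add]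
    rw [this]
    calc m * (2 * j) + 1 ≤ (j + 1) * (j + 1) := by nlinarith
      _ ≤ _ := Nat.mul_le_mul h1 h1
  have h3 : (2 * A) ^ (2 * j) ≤ r ^ (2 ^ (2 * j) - 1) := by
    calc (2 * A) ^ (2 * j) ≤ (r ^ m) ^ (2 * j) := by
          apply pow_le_pow_left₀ _ hm.le
          linarith
      _ = r ^ (m * (2 * j)) := by rw [← pow_mul]
      _ ≤ _ := pow_le_pow_right₀ hr.le (by omega)
  refine lt_of_lt_of_le ?_ h3
  rw [mul_pow]
  have hA0 : 0 < A ^ (2 * j) := pow_pos (by linarith) _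
  apply mul_lt_mul_of_pos_right _ hA0
  have h4 : (b : ℝ) ≤ 2 ^ (2 * j) := by
    have : b ≤ 2 ^ (2 * j) := by
      calc b ≤ j + 1 := by omega
        _ ≤ 2 ^ j := h1
        _ ≤ 2 ^ (2 * j) := Nat.pow_le_pow_right (by norm_num) (by omega)
    exact_mod_cast this
  linarith

lemma Quasi.triangle (h : Quasi ν A) (B : ℝ) (hB : ∀ n : ℕ, ν n ≤ B * n) (x y : K) :
    ν (x + y) ≤ ν x + ν y := by
  by_contra hlt
  push Not at hlt
  have hB1 : 1 ≤ B := by simpa using hB 1
  have hx := h.nonneg x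
  have hy := h.nonneg y
  rcases eq_or_lt_of_le (add_nonneg hx hy) with h0 | h0
  · have hx0 : ν x = 0 := by linarith
    have hy0 : ν y = 0 := by linarith
    have := h.add_le x y
    rw [hx0, hy0] at this
    simp at this
    linarith
  · obtain ⟨k, hk⟩ := growth (ν (x + y) / (ν x + ν y)) B A ((one_lt_div h0).2 hlt) h.one_le
    rw [div_pow, lt_div_iff₀ (pow_pos h0 _)] at hk
    have h2k : 0 < 2 ^ k := Nat.two_pow_pos k
    have h1 : ν ((x + y) ^ (2 ^ k - 1)) ≤ A ^ k * (B * (ν x + ν y) ^ (2 ^ k - 1)) := by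
      rw [add_pow, Nat.sub_add_cancel h2k]
      apply h.sum_le
      intro i hi
      rw [map_mul, map_mul, map_pow, map_pow]
      have h2 : ν x ^ i * ν y ^ (2 ^ k - 1 - i) * ((2 ^ k - 1).choose i : ℝ) ≤
          (ν x + ν y) ^ (2 ^ k - 1) := by
        rw [add_pow]
        refine Finset.single_le_sum (f := fun i => ν x ^ i * ν y ^ (2 ^ k - 1 - i) *
          ((2 ^ k - 1).choose i : ℝ)) ?_ ?_
        · intro i _
          positivity
        · rw [Finset.mem_range]; omega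
      calc ν x ^ i * ν y ^ (2 ^ k - 1 - i) * ν ((2 ^ k - 1).choose i : K)
          ≤ ν x ^ i * ν y ^ (2 ^ k - 1 - i) * (B * ((2 ^ k - 1).choose i : ℝ)) := by
            apply mul_le_mul_of_nonneg_left (hB _)
            positivity
        _ = B * (ν x ^ i * ν y ^ (2 ^ k - 1 - i) * ((2 ^ k - 1).choose i : ℝ)) := by ring
        _ ≤ _ := mul_le_mul_of_nonneg_left h2 (by linarith)
    rw [map_pow] at h1
    have h3 : A ^ k * (B * (ν x + ν y) ^ (2 ^ k - 1)) =
        B * A ^ k * (ν x + ν y) ^ (2 ^ k - 1) := by ring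
    rw [h3] at h1
    linarith

lemma Quasi.ultra (h : Quasi ν A) (hB : ∀ n : ℕ, ν n ≤ 1) (x y : K)
    (hx : ν x ≤ 1) (hy : ν y ≤ 1) : ν (x + y) ≤ 1 := by
  by_contra hlt
  push Not at hlt
  obtain ⟨k, hk⟩ := growth (ν (x + y)) 1 A hlt h.one_le
  have h2k : 0 < 2 ^ k := Nat.two_pow_pos k
  have h1 : ν ((x + y) ^ (2 ^ k - 1)) ≤ A ^ k * 1 := by
    rw [add_pow, Nat.sub_add_cancel h2k]
    apply h.sum_le
    intro i hi
    rw [map_mul, map_mul, map_pow, map_pow]
    refine mul_le_one₀ (mul_le_one₀ (pow_le_one₀ (h.nonneg _) hx)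
      (pow_nonneg (h.nonneg _) _) (pow_le_one₀ (h.nonneg _) hy)) (h.nonneg _) (hB _)
  rw [map_pow] at h1
  linarith

/-- Powers of a quasi absolute value. -/
noncomputable def qpow (ν : K →*₀ ℝ) (hν : ∀ x, 0 ≤ ν x) (s : ℝ) (hs : 0 < s) : K →*₀ ℝ where
  toFun x := ν x ^ s
  map_zero' := by rw [map_zero, Real.zero_rpow hs.ne']
  map_one' := by rw [map_one, Real.one_rpow]
  map_mul' x y := by rw [map_mul, Real.mul_rpow (hν x) (hν y)]

lemma Quasi.qpow (h : Quasi ν A) (s : ℝ) (hs : 0 < s) :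
    Quasi (qpow ν h.nonneg s hs) (A ^ s) where
  one_le := Real.one_le_rpow h.one_le hs.le
  nonneg x := Real.rpow_nonneg (h.nonneg x) s
  add_le x y := by
    change ν (x + y) ^ s ≤ A ^ s * max (ν x ^ s) (ν y ^ s)
    have hA : 0 ≤ A := zero_le_one.trans h.one_le
    have h1 : max (ν x ^ s) (ν y ^ s) = (max (ν x) (ν y)) ^ s := by
      rcases le_total (ν x) (ν y) with h2 | h2
      · rw [max_eq_right h2, max_eq_right (Real.rpow_le_rpow (h.nonneg _) h2 hs.le)]
      · rw [max_eq_left h2, max_eq_left (Real.rpow_le_rpow (h.nonneg _) h2 hs.le)]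
    rw [h1, ← Real.mul_rpow hA (le_max_of_le_left (h.nonneg _))]
    exact Real.rpow_le_rpow (h.nonneg _) (h.add_le x y) hs.le

end

/-- The bounded case. -/
theorem quasi_bdd {K : Type} [Field K] [NumberField K] {ν : K →*₀ ℝ} {A : ℝ} (h : Quasi ν A)
    (hB : ∀ n : ℕ, ν n ≤ 1) (hnt : ∃ z, 1 < ν z) :
    ∃ p : IsDedekindDomain.HeightOneSpectrum (NumberField.RingOfIntegers K),
      ∀ z : K, ν z ≤ 1 ↔ p.valuation K z ≤ 1 := by
  have hneg : ∀ x, ν (-x) = ν x := by
    intro x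
    have h1 : ν (-1) = 1 := by
      have h2 : ν (-1) * ν (-1) = 1 := by rw [← map_mul]; simp
      have h3 := h.nonneg (-1)
      nlinarith
    rw [← neg_one_mul, map_mul, h1, one_mul]
  let O : ValuationSubring K :=
    { carrier := {z | ν z ≤ 1}
      mul_mem' := fun {a b} ha hb => by
        change ν (a * b) ≤ 1
        rw [map_mul]
        exact mul_le_one₀ ha (h.nonneg _) hb
      one_mem' := by change ν 1 ≤ 1; rw [map_one]
      add_mem' := fun {a b} ha hb => h.ultra hB a b ha hb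
      zero_mem' := by change ν 0 ≤ 1; rw [map_zero]; exact zero_le_one
      neg_mem' := fun {a} ha => by change ν (-a) ≤ 1; rw [hneg]; exact ha
      mem_or_inv_mem' := fun x => by
        change ν x ≤ 1 ∨ ν x⁻¹ ≤ 1
        rcases le_total (ν x) 1 with h1 | h1
        · exact Or.inl h1
        · right
          rw [map_inv₀]
          exact inv_le_one_of_one_le₀ h1 }
  have hO : O ≠ ⊤ := by
    obtain ⟨z, hz⟩ := hnt
    intro hO
    have : z ∈ O := by rw [hO]; trivial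
    exact absurd this (not_le.2 hz)
  obtain ⟨p, hp⟩ := na O hO
  exact ⟨p, fun z => hp z⟩

end Pool.Agent.R331.SM
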