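import Mathlib
import Pool.Agent.Helper259.Selmer.Gal

set_option autoImplicit false

namespace Pool.Agent.R331.SM

open Polynomial Equiv

/-- Subgroups of small index contain the alternating group. -/
lemma alt_le {α : Type*} [DecidableEq α] [Fintype α] (h5 : 5 ≤ Fintype.card α)
    (H : Subgroup (Perm α)) (hH : H.index < Fintype.card α) : alternatingGroup α ≤ H := by
  classical
  have h : H.normalCore.index ∣ (H.index).factorial := by
    rw [Subgroup.normalCore_eq_ker, Subgroup.index_ker, Subgroup.index_eq_card, ← Nat.card_perm]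
    exact Subgroup.card_subgroup_dvd_card (MulAction.toPermHom (Perm α) (Perm α ⧸ H)).range
  have hne : Nontrivial H.normalCore := by
    rw [Subgroup.nontrivial_iff_ne_bot]
    intro hbot
    rw [hbot, Subgroup.index_bot, Nat.card_perm, Nat.card_eq_fintype_card] at h
    have h1 := Nat.le_of_dvd (Nat.factorial_pos _) h
    have h2 : (H.index).factorial < (Fintype.card α).factorial := by
      apply (Nat.factorial_lt _).2 hH
      exact Nat.pos_of_ne_zero Subgroup.index_ne_zero_of_finite
    omega
  exact (Equiv.Perm.alternatingGroup_le_of_normal (by rwa [Nat.card_eq_fintype_card]) hne).trans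
    H.normalCore_le

/-- Symmetric groups embed in alternating groups. -/
lemma exists_alt_emb {α : Type*} [DecidableEq α] [Fintype α] (N : ℕ)
    (hN : 2 * N ≤ Fintype.card α) :
    ∃ j : Perm (Fin N) →* Perm α, Function.Injective j ∧ ∀ σ, j σ ∈ alternatingGroup α := by
  classical
  have hemb : Nonempty (Fin N ⊕ Fin N ↪ α) := by
    apply Function.Embedding.nonempty_of_card_le
    rw [Fintype.card_sum, Fintype.card_fin]
    omega
  obtain ⟨f⟩ := hemb
  let j : Perm (Fin N) →* Perm α := (Equiv.Perm.viaEmbeddingHom f).comp
    ((Equiv.Perm.sumCongrHom (Fin N) (Fin N)).comp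
      (MonoidHom.prod (MonoidHom.id _) (MonoidHom.id _)))
  have hj : ∀ σ, j σ = (Perm.sumCongr σ σ).viaEmbedding f := fun σ => rfl
  refine ⟨j, ?_, ?_⟩
  · apply (Equiv.Perm.viaEmbeddingHom_injective f).comp
    apply (Equiv.Perm.sumCongrHom_injective).comp
    intro σ τ h
    exact congrArg Prod.fst h
  · intro σ
    rw [Equiv.Perm.mem_alternatingGroup, hj]
    have : Perm.sign ((Perm.sumCongr σ σ).viaEmbedding f) = Perm.sign (Perm.sumCongr σ σ) := by
      unfold Perm.viaEmbedding
      convert Equiv.Perm.sign_extendDomain (Perm.sumCongr σ σ) (Equiv.ofInjective f.1 f.2)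
    rw [this, Equiv.Perm.sign_sumCongr, ← sq, Int.units_sq]

/-- The degree of the splitting field of the Selmer polynomial. -/
lemma finrank_selmer (p : ℕ) (hp : p.Prime) (L : Type) [Field L] [NumberField L]
    (hs : IsSplittingField ℚ L (X ^ p - X - 1 : ℚ[X])) : Module.finrank ℚ L = p.factorial := by
  classical
  have hG : IsGalois ℚ L := by
    have hirr := X_pow_sub_X_sub_one_irreducible_rat hp.one_lt.ne'
    exact IsGalois.of_separable_splitting_field (p := (X ^ p - X - 1 : ℚ[X])) hirr.separable
  have hb := Pool.Agent.Helper259.Selmer.bijective (L := L) hp hs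
  have hF : (Helper259.Selmer.F p).map (algebraMap ℤ L) =
      (X ^ p - X - 1 : ℚ[X]).map (algebraMap ℚ L) := by
    rw [Helper259.Selmer.F_map]; simp
  have hsF : ((Helper259.Selmer.F p).map (algebraMap ℤ L)).Splits := by rw [hF]; exact hs.splits
  have hcard := Helper259.Selmer.card_rootSet_int hp.two_le hsF
  rw [← IsGalois.card_aut_eq_finrank, Nat.card_congr (Equiv.ofBijective _ hb), Nat.card_perm,
    Nat.card_eq_fintype_card, hcard]

lemma exists_L (f : ℚ[X]) : ∃ (L : Type) (_ : Field L) (_ : NumberField L),
    IsSplittingField ℚ L f := by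
  have h := IsSplittingField.splittingField f
  have hcz : CharZero f.SplittingField := inferInstance
  have e : (DivisionRing.toRatAlgebra : Algebra ℚ f.SplittingField) =
      SplittingField.instAlgebra_1 f := Subsingleton.elim _ _
  rw [← e] at h
  have hfd : FiniteDimensional ℚ f.SplittingField :=
    IsSplittingField.finiteDimensional f.SplittingField f
  have hNL : NumberField f.SplittingField :=
    { to_charZero := inferInstance
      to_finiteDimensional := hfd }
  exact ⟨f.SplittingField, inferInstance, hNL, h⟩

/-- Every symmetric group embeds in the group of a Galois extension. -/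
theorem exists_emb (K : Type) [Field K] [NumberField K] (N : ℕ) :
    ∃ (E : Type) (_ : Field E) (_ : Algebra K E) (_ : FiniteDimensional K E) (_ : IsGalois K E)
      (ι : Perm (Fin N) →* Gal(E/K)), Function.Injective ι := by
  classical
  obtain ⟨p, hpN, hp⟩ := Nat.exists_infinite_primes (2 * N + Module.finrank ℚ K + 5)
  set f : K[X] := X ^ p - X - 1 with hf
  have hirr := X_pow_sub_X_sub_one_irreducible_rat hp.one_lt.ne'
  have hfmap : (X ^ p - X - 1 : ℚ[X]).map (algebraMap ℚ K) = f := by simp [hf]
  have hsep : f.Separable := by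
    rw [← hfmap]
    exact hirr.separable.map
  let E := f.SplittingField
  have hspE : (f.map (algebraMap K E)).Splits := SplittingField.splits f
  have hGal : IsGalois K E := IsGalois.of_separable_splitting_field (p := f) hsep
  have hfd : FiniteDimensional K E := inferInstance
  have hcz : CharZero E := inferInstance
  let _ : Fact ((f.map (algebraMap K E)).Splits) := ⟨hspE⟩
  have hdeg : f.natDegree = p := Helper259.Selmer.natDegree_aux hp.two_le
  have hcard : Fintype.card (f.rootSet E) = p := by
    rw [card_rootSet_eq_natDegree hsep hspE, hdeg]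
  let ρ : Gal(E/K) →* Perm (f.rootSet E) := Polynomial.Gal.galActionHom f E
  have hρ : Function.Injective ρ := Polynomial.Gal.galActionHom_injective f E
  -- degrees
  obtain ⟨L, iL, hNL, hLs⟩ := exists_L (X ^ p - X - 1 : ℚ[X])
  have hL : Module.finrank ℚ L = p.factorial := finrank_selmer p hp L hLs
  let algQE : Algebra ℚ E := DivisionRing.toRatAlgebra
  have hst : IsScalarTower ℚ K E := IsScalarTower.of_algebraMap_eq' (RingHom.ext_rat _ _)
  have hfE : ((X ^ p - X - 1 : ℚ[X]).map (algebraMap ℚ E)).Splits := by
    have : (X ^ p - X - 1 : ℚ[X]).map (algebraMap ℚ E) = f.map (algebraMap K E) := by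
      simp [hf]
    rw [this]
    exact hspE
  let φ : L →ₐ[ℚ] E := IsSplittingField.lift L (X ^ p - X - 1 : ℚ[X]) hfE
  have hfdQ : FiniteDimensional ℚ E := FiniteDimensional.trans ℚ K E
  have h1 : Module.finrank ℚ L ≤ Module.finrank ℚ E :=
    LinearMap.finrank_le_finrank_of_injective (f := φ.toLinearMap) φ.injective
  have h2 : Module.finrank ℚ K * Module.finrank K E = Module.finrank ℚ E :=
    Module.finrank_mul_finrank ℚ K E
  have h3 : Nat.card ρ.range = Module.finrank K E := by
    rw [← Nat.card_congr (MonoidHom.ofInjective hρ).toEquiv, IsGalois.card_aut_eq_finrank]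
  have h4 : Nat.card ρ.range * ρ.range.index = p.factorial := by
    rw [Subgroup.card_mul_index, Nat.card_perm, Nat.card_eq_fintype_card, hcard]
  have h5 : ρ.range.index ≤ Module.finrank ℚ K := by
    rw [hL, ← h2, ← h3, ← h4, mul_comm] at h1
    exact Nat.le_of_mul_le_mul_right h1 (Nat.pos_of_ne_zero (by
      rw [h3]; exact Module.finrank_pos.ne'))
  have h6 : alternatingGroup (f.rootSet E) ≤ ρ.range := by
    apply alt_le
    · rw [hcard]; omega
    · rw [hcard]; omega
  obtain ⟨j, hj, hj2⟩ := exists_alt_emb (α := f.rootSet E) N (by rw [hcard]; omega)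
  refine ⟨E, inferInstance, inferInstance, hfd, hGal,
    ((MonoidHom.ofInjective hρ).symm : ρ.range →* Gal(E/K)).comp
      (j.codRestrict ρ.range (fun σ => h6 (hj2 σ))), ?_⟩
  intro σ τ h
  apply hj
  have h7 := (MonoidHom.ofInjective hρ).symm.injective h
  exact congrArg Subtype.val h7

end Pool.Agent.R331.SM
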