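import Mathlib
import Pool.Agent.R331.SM.GalE

set_option autoImplicit false

namespace Pool.Agent.R331.SM

open Equiv Finset

/-- Conjugates from permutations. -/
theorem conj_of_perm {K : Type} [Field K] [NumberField K] {n N : ℕ} (a : Fin n → K)
    (π : Fin n → Perm (Fin N)) (v : Fin N → K) (hv : v ≠ 0)
    (h : ∀ k, ∑ i, a i * v (π i k) = 0) :
    ∃ α : Fin n → AlgebraicClosure K,
        (∀ i, α i ≠ 0) ∧ (∀ i j, minpoly K (α i) = minpoly K (α j)) ∧
        ∑ i, algebraMap K (AlgebraicClosure K) (a i) * α i = 0 := by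
  classical
  obtain ⟨E, i1, i2, i3, i4, ι, hι⟩ := exists_emb K N
  obtain ⟨b0, hb0⟩ : ∃ b0, v b0 ≠ 0 := Function.ne_iff.1 hv
  obtain ⟨θ, hθ⟩ := exists_linearIndependent_algEquiv_apply K E
  have hlin : LinearIndependent K (fun τ : Perm (Fin N) => ι τ θ) := hθ.comp ι hι
  have hl := Fintype.linearIndependent_iff.1 hlin
  let β : Fin n → E := fun i => ∑ τ : Perm (Fin N), v (π i (τ b0)) • ι τ θ
  let γ : E := ∑ τ : Perm (Fin N), v (τ b0) • ι τ θ
  have hβγ : ∀ i, β i = ι (π i)⁻¹ γ := by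
    intro i
    change ∑ τ : Perm (Fin N), v (π i (τ b0)) • ι τ θ =
      ι (π i)⁻¹ (∑ τ : Perm (Fin N), v (τ b0) • ι τ θ)
    rw [map_sum]
    apply Fintype.sum_bijective (fun τ => π i * τ) (Group.mulLeft_bijective (π i))
    intro τ
    rw [map_smul, ← AlgEquiv.mul_apply, ← map_mul, inv_mul_cancel_left]
    rfl
  have hβ0 : ∀ i, β i ≠ 0 := by
    intro i h0
    have := hl _ h0 (π i)⁻¹
    rw [← Perm.mul_apply, mul_inv_cancel, Perm.one_apply] at this
    exact hb0 this
  have hsum : ∑ i, a i • β i = 0 := by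
    change ∑ i, a i • (∑ τ : Perm (Fin N), v (π i (τ b0)) • ι τ θ) = 0
    simp only [Finset.smul_sum]
    rw [Finset.sum_comm]
    apply Finset.sum_eq_zero
    intro τ _
    simp only [smul_smul]
    rw [← Finset.sum_smul, h, zero_smul]
  let φ : E →ₐ[K] AlgebraicClosure K := IsAlgClosed.lift
  refine ⟨fun i => φ (β i), fun i => ?_, fun i j => ?_, ?_⟩
  · rw [map_ne_zero]; exact hβ0 i
  · change minpoly K (φ (β i)) = minpoly K (φ (β j))
    rw [minpoly.algHom_eq φ φ.injective, minpoly.algHom_eq φ φ.injective, hβγ, hβγ,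
      minpoly.algEquiv_eq, minpoly.algEquiv_eq]
  · have := congrArg φ hsum
    rw [map_sum, map_zero] at this
    rw [← this]
    apply Finset.sum_congr rfl
    intro i _
    rw [map_smul, Algebra.smul_def]

end Pool.Agent.R331.SM
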