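import Mathlib

set_option autoImplicit false

namespace Pool.Agent.R331.SM

open Filter Topology

/-- A totally preordered abelian group with a strong unit has a real valued monotone
homomorphism. -/
theorem holder {G : Type*} [AddCommGroup G] (r : G → G → Prop) (total : ∀ x y, r x y ∨ r y x)
    (trans : ∀ x y z, r x y → r y z → r x z) (radd : ∀ x y z, r x y → r (x + z) (y + z))
    (c : G) (hc : ¬ r c 0) (hunit : ∀ x, ∃ m : ℕ, r x (m • c)) :
    ∃ ψ : G →+ ℝ, (∀ x y, r x y → ψ x ≤ ψ y) ∧ ψ c = 1 := by
  have refl : ∀ x, r x x := fun x => by rcases total x x with h | h <;> exact h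
  have radd2 : ∀ x y z w, r x y → r z w → r (x + z) (y + w) := by
    intro x y z w h1 h2
    refine trans _ _ _ (radd x y z h1) ?_
    rw [add_comm y z, add_comm y w]
    exact radd z w y h2
  have hc0 : r 0 c := by rcases total 0 c with h | h; exacts [h, absurd h hc]
  have hnat : ∀ m : ℕ, r 0 (m • c) := by
    intro m
    induction m with
    | zero => rw [zero_smul]; exact refl 0
    | succ m ih =>
      rw [succ_nsmul]
      have := radd2 0 (m • c) 0 c ih hc0
      rwa [add_zero] at this
  have hsucc : ∀ m : ℕ, ¬ r ((m + 1 : ℕ) • c) 0 := by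
    intro m h
    apply hc
    have h1 := radd2 _ _ _ _ (hnat m) (refl c)
    rw [zero_add, ← succ_nsmul] at h1
    exact trans _ _ _ h1 h
  have hmono : ∀ m k : ℤ, m ≤ k → r (m • c) (k • c) := by
    intro m k h
    obtain ⟨l, rfl⟩ := Int.le.dest h
    rw [add_smul]
    have := radd2 _ _ _ _ (refl (m • c)) (hnat l)
    rwa [add_zero, ← natCast_zsmul] at this
  have hmono2 : ∀ m k : ℤ, r (m • c) (k • c) → m ≤ k := by
    intro m k h
    by_contra hlt
    push Not at hlt
    obtain ⟨l, hl⟩ := Int.le.dest hlt.le
    have hl0 : l ≠ 0 := by rintro rfl; simp at hl; omega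
    obtain ⟨l', rfl⟩ := Nat.exists_eq_succ_of_ne_zero hl0
    apply hsucc l'
    rw [← hl, add_smul] at h
    have := radd _ _ (-(k • c)) h
    rwa [add_right_comm, add_neg_cancel, zero_add, natCast_zsmul] at this
  have hex : ∀ x : G, ∃ m : ℤ, r (m • c) x ∧ ∀ k : ℤ, r (k • c) x → k ≤ m := by
    intro x
    apply Int.exists_greatest_of_bdd
    · obtain ⟨m, hm⟩ := hunit x
      refine ⟨m, fun z hz => hmono2 _ _ ?_⟩
      rw [natCast_zsmul]
      exact trans _ _ _ hz hm
    · obtain ⟨m, hm⟩ := hunit (-x)
      refine ⟨-(m : ℤ), ?_⟩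
      have := radd _ _ (x + -(m • c)) hm
      rw [neg_smul, natCast_zsmul]
      have e1 : -x + (x + -(m • c)) = -(m • c) := by abel
      have e2 : m • c + (x + -(m • c)) = x := by abel
      rwa [e1, e2] at this
  choose f hf1 hf2 using hex
  have hf3 : ∀ x, ¬ r ((f x + 1) • c) x := by
    intro x h
    have := hf2 x _ h
    omega
  have hfadd : ∀ x y, f x + f y ≤ f (x + y) := by
    intro x y
    apply hf2
    rw [add_smul]
    exact radd2 _ _ _ _ (hf1 x) (hf1 y)
  have hfadd2 : ∀ x y, f (x + y) ≤ f x + f y + 1 := by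
    intro x y
    by_contra hlt
    push Not at hlt
    have h1 : r ((f x + f y + 2) • c) (x + y) := by
      refine trans _ _ _ (hmono _ _ ?_) (hf1 (x + y))
      omega
    have h2 : r y ((f y + 1) • c) := by
      rcases total y ((f y + 1) • c) with h | h
      · exact h
      · exact absurd h (hf3 y)
    apply hf3 x
    have h3 : r ((f x + f y + 2) • c) (x + (f y + 1) • c) :=
      trans _ _ _ h1 (radd2 _ _ _ _ (refl x) h2)
    have h4 := radd _ _ (-((f y + 1) • c)) h3
    have e1 : (f x + f y + 2) • c + -((f y + 1) • c) = (f x + 1) • c := by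
      rw [← neg_smul, ← add_smul]; congr 1; ring
    rwa [e1, add_neg_cancel_right] at h4
  have hfmono : ∀ x y, r x y → f x ≤ f y := fun x y h => hf2 y _ (trans _ _ _ (hf1 x) h)
  have hfc : ∀ m : ℤ, f (m • c) = m := by
    intro m
    apply le_antisymm
    · exact hmono2 _ _ (hf1 _)
    · exact hf2 _ _ (refl _)
  -- the limit
  have hlim : ∀ x : G, ∃ L : ℝ, Tendsto (fun n : ℕ => (f (n • x) : ℝ) / n) atTop (𝓝 L) := by
    intro x
    have hsub : Subadditive (fun n : ℕ => -(f (n • x) : ℝ)) := by
      intro m n
      have := hfadd (m • x) (n • x)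
      rw [← add_smul] at this
      have h2 : ((f (m • x) : ℝ)) + f (n • x) ≤ f ((m + n) • x) := by exact_mod_cast this
      linarith
    obtain ⟨m, hm⟩ := hunit x
    have hnx : ∀ n : ℕ, r (n • x) ((n * m : ℤ) • c) := by
      intro n
      induction n with
      | zero => simpa using refl 0
      | succ n ih =>
        have := radd2 _ _ _ _ ih hm
        rw [succ_nsmul]
        have e : (((n + 1 : ℕ) : ℤ) * m) • c = ((n : ℤ) * m) • c + m • c := by
          rw [← natCast_zsmul c m, ← add_smul]; congr 1; push_cast; ring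
        rwa [e]
    have hbdd : BddBelow (Set.range fun n : ℕ => (-(f (n • x) : ℝ)) / n) := by
      refine ⟨-(m : ℝ), ?_⟩
      rintro _ ⟨n, rfl⟩
      rcases Nat.eq_zero_or_pos n with rfl | hn
      · simp
      · have h1 : f (n • x) ≤ n * m := by
          have := hfmono _ _ (hnx n)
          rwa [hfc] at this
        have h2 : (f (n • x) : ℝ) ≤ n * m := by exact_mod_cast h1
        have hn' : (0 : ℝ) < n := by exact_mod_cast hn
        rw [le_div_iff₀ hn']
        linarith
    refine ⟨-hsub.lim, ?_⟩
    have := (hsub.tendsto_lim hbdd).neg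
    refine this.congr fun n => ?_
    rw [neg_div, neg_neg]
  choose L hL using hlim
  have hLadd : ∀ x y, L (x + y) = L x + L y := by
    intro x y
    have h1 := (hL x).add (hL y)
    have h2 := hL (x + y)
    have h3 : Tendsto (fun n : ℕ => (f (n • (x + y)) : ℝ) / n -
        ((f (n • x) : ℝ) / n + (f (n • y) : ℝ) / n)) atTop (𝓝 0) := by
      apply squeeze_zero (g := fun n : ℕ => 1 / (n : ℝ))
      · intro n
        rcases Nat.eq_zero_or_pos n with rfl | hn
        · simp
        · have hn' : (0 : ℝ) < n := by exact_mod_cast hn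
          have := hfadd (n • x) (n • y)
          rw [← smul_add] at this
          have h4 : (f (n • x) : ℝ) + f (n • y) ≤ f (n • (x + y)) := by exact_mod_cast this
          rw [← add_div, ← sub_div]
          apply div_nonneg _ hn'.le
          linarith
      · intro n
        rcases Nat.eq_zero_or_pos n with rfl | hn
        · simp
        · have hn' : (0 : ℝ) < n := by exact_mod_cast hn
          have := hfadd2 (n • x) (n • y)
          rw [← smul_add] at this
          have h4 : (f (n • (x + y)) : ℝ) ≤ f (n • x) + f (n • y) + 1 := by exact_mod_cast this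
          rw [← add_div, ← sub_div]
          apply div_le_div_of_nonneg_right _ hn'.le
          linarith
      · exact tendsto_one_div_atTop_nhds_zero_nat
    have h4 := tendsto_nhds_unique h3 (h2.sub h1)
    linarith
  refine ⟨AddMonoidHom.mk' L hLadd, ?_, ?_⟩
  · intro x y hxy
    refine le_of_tendsto_of_tendsto' (hL x) (hL y) fun n => ?_
    have h1 : r (n • x) (n • y) := by
      induction n with
      | zero => simpa using refl 0
      | succ n ih => rw [succ_nsmul, succ_nsmul]; exact radd2 _ _ _ _ ih hxy
    have h2 : (f (n • x) : ℝ) ≤ f (n • y) := by exact_mod_cast hfmono _ _ h1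
    exact div_le_div_of_nonneg_right h2 (Nat.cast_nonneg n)
  · refine tendsto_nhds_unique (hL c) ?_
    refine tendsto_const_nhds.congr' ?_
    filter_upwards [eventually_gt_atTop 0] with n hn
    have hn' : (n : ℝ) ≠ 0 := by exact_mod_cast hn.ne'
    rw [← natCast_zsmul, hfc]
    push_cast
    rw [div_self hn']

end Pool.Agent.R331.SM
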