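import Mathlib

set_option autoImplicit false

namespace Pool.Agent.R331.SM

open Polynomial Finset NumberField IsDedekindDomain

section conj

variable {K : Type} [Field K] [NumberField K]

/-- A root of unity relation gives a relation between conjugates. -/
theorem conj_of_roots {n : ℕ} (a : Fin n → K)
    (h : ∃ ω : Fin n → AlgebraicClosure K, (∀ i, ∃ m : ℕ, 0 < m ∧ ω i ^ m = 1) ∧
        ∑ i, algebraMap K (AlgebraicClosure K) (a i) * ω i = 0) :
    ∃ α : Fin n → AlgebraicClosure K,
        (∀ i, α i ≠ 0) ∧ (∀ i j, minpoly K (α i) = minpoly K (α j)) ∧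
        ∑ i, algebraMap K (AlgebraicClosure K) (a i) * α i = 0 := by
  classical
  obtain ⟨ω, hω, hsum⟩ := h
  choose m hm0 hm1 using hω
  set M := ∏ i, m i with hM
  have hM0 : 0 < M := Finset.prod_pos fun i _ => hm0 i
  have hωM : ∀ i, ω i ^ M = 1 := by
    intro i
    obtain ⟨k, hk⟩ : m i ∣ M := Finset.dvd_prod_of_mem m (mem_univ i)
    rw [hk, pow_mul, hm1, one_pow]
  obtain ⟨P, hP⟩ := Ideal.exists_maximal (𝓞 K)
  have hP0 : P ≠ ⊥ := Ring.ne_bot_of_isMaximal_of_not_isField hP (RingOfIntegers.not_isField K)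
  obtain ⟨c, hc1, hc2⟩ := Ideal.exists_mem_pow_notMem_pow_succ P hP0 hP.ne_top 1
  rw [pow_one] at hc1
  have hirrO : Irreducible (X ^ M - C c : (𝓞 K)[X]) := by
    have hE : (X ^ M - C c : (𝓞 K)[X]).IsEisensteinAt P :=
      { leading := by
          rw [leadingCoeff_X_pow_sub_C hM0]
          intro h1
          exact hP.ne_top ((Ideal.eq_top_iff_one P).2 h1)
        mem := by
          intro k hk
          rw [natDegree_X_pow_sub_C] at hk
          rw [coeff_sub, coeff_X_pow, if_neg hk.ne, zero_sub, coeff_C]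
          split_ifs
          · exact P.neg_mem hc1
          · simp
        notMem := by
          rw [coeff_sub, coeff_X_pow, if_neg hM0.ne, zero_sub, coeff_C_zero]
          intro h1
          exact hc2 (by simpa using h1) }
    refine hE.irreducible hP.isPrime (monic_X_pow_sub_C c hM0.ne').isPrimitive ?_
    rw [natDegree_X_pow_sub_C]
    exact hM0
  have hmonO := monic_X_pow_sub_C c hM0.ne'
  have hirr : Irreducible (X ^ M - C (c : K) : K[X]) := by
    have h1 := (Polynomial.Monic.irreducible_iff_irreducible_map_fraction_map (K := K) hmonO).1 hirrO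
    rwa [Polynomial.map_sub, Polynomial.map_pow, map_X, map_C] at h1
  have hmon : (X ^ M - C (c : K) : K[X]).Monic := monic_X_pow_sub_C _ hM0.ne'
  have hc0 : (c : K) ≠ 0 := by
    intro h0
    have h1 : c = 0 := RingOfIntegers.ext h0
    rw [h1] at hc2
    exact hc2 (Submodule.zero_mem _)
  obtain ⟨β, hβ⟩ := IsAlgClosed.exists_pow_nat_eq (algebraMap K (AlgebraicClosure K) (c : K)) hM0
  have hβ0 : β ≠ 0 := by
    rintro rfl
    rw [zero_pow hM0.ne'] at hβ
    exact hc0 ((map_eq_zero (algebraMap K (AlgebraicClosure K))).1 hβ.symm)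
  have hω0 : ∀ i, ω i ≠ 0 := by
    intro i h0
    have := hm1 i
    rw [h0, zero_pow (hm0 i).ne'] at this
    exact zero_ne_one this
  have hmin : ∀ i, minpoly K (ω i * β) = X ^ M - C (c : K) := by
    intro i
    refine (minpoly.eq_of_irreducible_of_monic hirr ?_ hmon).symm
    rw [map_sub, map_pow, aeval_X, aeval_C, mul_pow, hωM, one_mul, hβ, sub_self]
  refine ⟨fun i => ω i * β, fun i => mul_ne_zero (hω0 i) hβ0, fun i j => ?_, ?_⟩
  · rw [hmin, hmin]
  · have h2 : ∑ i, algebraMap K (AlgebraicClosure K) (a i) * (ω i * β) =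
        (∑ i, algebraMap K (AlgebraicClosure K) (a i) * ω i) * β := by
      rw [Finset.sum_mul]
      apply Finset.sum_congr rfl
      intro i _
      ring
    rw [h2, hsum, zero_mul]

/-- The nonarchimedean condition. -/
theorem nonarch_of_conj {n : ℕ} (a : Fin n → K) (α : Fin n → AlgebraicClosure K)
    (hα0 : ∀ i, α i ≠ 0) (hα : ∀ i j, minpoly K (α i) = minpoly K (α j))
    (hsum : ∑ i, algebraMap K (AlgebraicClosure K) (a i) * α i = 0)
    (h0 : ∃ k, a k ≠ 0) (p : HeightOneSpectrum (𝓞 K)) (i : Fin n) :
    ∃ j : Fin n, j ≠ i ∧ p.valuation K (a i) ≤ p.valuation K (a j) := by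
  classical
  by_contra hcon
  push Not at hcon
  set O := (p.valuation K).valuationSubring with hO
  let f : O →+* AlgebraicClosure K := (algebraMap K (AlgebraicClosure K)).comp O.subtype
  obtain ⟨B, hB, hloc⟩ := IsLocalRing.exists_factor_valuationRing f
  -- small elements remain small
  have hsmall : ∀ z : K, p.valuation K z < 1 →
      B.valuation (algebraMap K (AlgebraicClosure K) z) < 1 := by
    intro z hz
    have hzO : z ∈ O := hz.le
    have h1 : ¬ IsUnit (⟨z, hzO⟩ : O) := by
      intro hu
      obtain ⟨w, hw⟩ := hu.exists_right_inv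
      have h2 := congrArg (fun x : O => p.valuation K (x : K)) hw
      have h3 : p.valuation K z * p.valuation K (w : K) = 1 := by
        rw [← map_mul]
        have : (z * (w : K)) = 1 := congrArg Subtype.val hw
        rw [this, map_one]
      have h4 : p.valuation K (w : K) ≤ 1 := w.2
      have h5 : p.valuation K z * p.valuation K (w : K) < 1 :=
        mul_lt_one_of_lt_of_le hz h4
      exact absurd h3 h5.ne
    have h2 : ¬ IsUnit (f.codRestrict B.toSubring hB ⟨z, hzO⟩) := fun hu => h1 (hloc.map_nonunit _ hu)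
    have h3 := (ValuationSubring.valuation_lt_one_iff B
      ⟨algebraMap K (AlgebraicClosure K) z, hB ⟨z, hzO⟩⟩).1
    apply h3
    rw [IsLocalRing.mem_maximalIdeal]
    exact h2
  -- the largest conjugate
  have hint : IsIntegral K (α i) := Algebra.IsIntegral.isIntegral _
  let S : Finset (AlgebraicClosure K) := ((minpoly K (α i)).rootSet (AlgebraicClosure K)).toFinset
  have hS : ∀ x, x ∈ S ↔ minpoly K (α i) = minpoly K x := by
    intro x
    rw [Set.mem_toFinset]
    constructor
    · intro hx
      exact (isConjRoot_iff_mem_minpoly_rootSet hint).2 hx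
    · intro hx
      exact (isConjRoot_iff_mem_minpoly_rootSet hint).1 hx
  obtain ⟨β, hβS, hmax⟩ := Finset.exists_max_image S B.valuation ⟨α i, (hS _).2 rfl⟩
  obtain ⟨g, hg⟩ : ∃ g : Gal(AlgebraicClosure K/K), g (α i) = β :=
    IsConjRoot.exists_algEquiv (K := K) (x := β) (y := α i) ((hS β).1 hβS).symm
  have hβ0 : β ≠ 0 := by
    rw [← hg]
    exact (map_ne_zero g).2 (hα0 i)
  have hai : a i ≠ 0 := by
    intro h1
    obtain ⟨k, hk⟩ := h0
    have hki : k ≠ i := fun h => hk (by rw [h, h1])
    have := hcon k hki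
    rw [h1, map_zero] at this
    exact absurd this (not_lt.2 zero_le)
  have hgS : ∀ j, g (α j) ∈ S := by
    intro j
    rw [hS, minpoly.algEquiv_eq, hα i j]
  have hrel : β = ∑ j ∈ univ.erase i,
      algebraMap K (AlgebraicClosure K) (-(a j / a i)) * g (α j) := by
    have h1 := congrArg g hsum
    rw [map_sum, map_zero, ← Finset.add_sum_erase _ _ (mem_univ i)] at h1
    simp only [map_mul, AlgEquiv.commutes] at h1
    rw [hg] at h1
    have hne : algebraMap K (AlgebraicClosure K) (a i) ≠ 0 := (_root_.map_ne_zero _).2 hai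
    have h2 : β = -(∑ j ∈ univ.erase i, algebraMap K (AlgebraicClosure K) (a j) * g (α j)) /
        algebraMap K (AlgebraicClosure K) (a i) := by
      rw [eq_div_iff hne, mul_comm]
      exact eq_neg_of_add_eq_zero_left h1
    rw [h2, neg_div, Finset.sum_div, ← Finset.sum_neg_distrib]
    apply Finset.sum_congr rfl
    intro j _
    rw [map_neg, map_div₀]
    ring
  have hβv : B.valuation β ≠ 0 := (Valuation.ne_zero_iff _).2 hβ0
  have hlt : B.valuation (∑ j ∈ univ.erase i,
      algebraMap K (AlgebraicClosure K) (-(a j / a i)) * g (α j)) < B.valuation β := by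
    apply Valuation.map_sum_lt _ hβv
    intro j hj
    have hc : p.valuation K (-(a j / a i)) < 1 := by
      rw [Valuation.map_neg, map_div₀]
      exact (div_lt_one₀ ((Valuation.pos_iff _).2 hai)).2 (hcon j (Finset.ne_of_mem_erase hj))
    rw [map_mul]
    calc _ ≤ B.valuation (algebraMap K (AlgebraicClosure K) (-(a j / a i))) * B.valuation β :=
          mul_le_mul_right (hmax _ (hgS j)) _
      _ < 1 * B.valuation β := by
          exact mul_lt_mul_of_pos_right (hsmall _ hc) (zero_lt_iff.2 hβv)
      _ = B.valuation β := one_mul _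
  rw [← hrel] at hlt
  exact absurd hlt (lt_irrefl _)

end conj

end Pool.Agent.R331.SM
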