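import Mathlib

set_option autoImplicit false

namespace Pool.Agent.R331.SM

open Polynomial Finset NumberField IsDedekindDomain

/-- Equality in the triangle inequality. -/
lemma align {ι : Type*} (s : Finset ι) (z : ι → ℂ) (r : ι → ℝ) (z0 : ℂ) (hz0 : z0 ≠ 0)
    (hz : ∑ j ∈ s, z j = z0) (hr : ∀ j ∈ s, ‖z j‖ ≤ r j * ‖z0‖) (hsum : ∑ j ∈ s, r j ≤ 1) :
    ∀ j ∈ s, z j = r j * z0 := by
  have hn : 0 < ‖z0‖ := norm_pos_iff.2 hz0
  have hw : ∑ j ∈ s, z j / z0 = 1 := by
    rw [← Finset.sum_div, hz, div_self hz0]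
  have hwn : ∀ j ∈ s, ‖z j / z0‖ ≤ r j := by
    intro j hj
    rw [norm_div]
    exact (div_le_iff₀ hn).2 (hr j hj)
  have hre : ∑ j ∈ s, (z j / z0).re = 1 := by
    rw [← Complex.re_sum, hw, Complex.one_re]
  have hnn : ∀ j ∈ s, 0 ≤ r j - (z j / z0).re := by
    intro j hj
    have := Complex.re_le_norm (z j / z0)
    have := hwn j hj
    linarith
  have h0 : ∑ j ∈ s, (r j - (z j / z0).re) = 0 := by
    apply le_antisymm
    · rw [Finset.sum_sub_distrib, hre]; linarith
    · exact Finset.sum_nonneg hnn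
  intro j hj
  have h1 := (Finset.sum_eq_zero_iff_of_nonneg hnn).1 h0 j hj
  have h2 : (z j / z0).re = r j := by linarith
  have h3 := hwn j hj
  have h4 : (z j / z0).im = 0 := by
    have h5 := Complex.sq_norm (z j / z0)
    rw [Complex.normSq_apply] at h5
    have h6 : ‖z j / z0‖ ^ 2 ≤ (z j / z0).re ^ 2 := by
      rw [h2]
      exact pow_le_pow_left₀ (norm_nonneg _) h3 2
    nlinarith [mul_self_nonneg (z j / z0).im]
  have h5 : z j / z0 = r j := by
    apply Complex.ext
    · rw [h2, Complex.ofReal_re]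
    · rw [h4, Complex.ofReal_im]
  rw [← h5, div_mul_cancel₀ _ hz0]

section conj

variable {K : Type} [Field K] [NumberField K]

/-- The archimedean condition. -/
theorem arch_of_conj {n : ℕ} (a : Fin n → K) (α : Fin n → AlgebraicClosure K)
    (hα0 : ∀ i, α i ≠ 0) (hα : ∀ i j, minpoly K (α i) = minpoly K (α j))
    (hsum : ∑ i, algebraMap K (AlgebraicClosure K) (a i) * α i = 0)
    (v : InfinitePlace K) (i : Fin n) (hv : ∑ j ∈ univ.erase i, v (a j) ≤ v (a i)) :
    ∃ ω : Fin n → AlgebraicClosure K, (∀ i, ∃ m : ℕ, 0 < m ∧ ω i ^ m = 1) ∧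
        ∑ i, algebraMap K (AlgebraicClosure K) (a i) * ω i = 0 := by
  classical
  by_cases hai : a i = 0
  · refine ⟨fun _ => 1, fun _ => ⟨1, one_pos, one_pow _⟩, ?_⟩
    have h1 : ∀ j, a j = 0 := by
      intro j
      by_cases hj : j = i
      · rw [hj, hai]
      · rw [hai, map_zero] at hv
        have h2 : v (a j) ≤ ∑ j ∈ univ.erase i, v (a j) :=
          Finset.single_le_sum (f := fun j => v (a j)) (fun k _ => apply_nonneg v _)
            (Finset.mem_erase.2 ⟨hj, mem_univ j⟩)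
        have h3 : v (a j) = 0 := le_antisymm (h2.trans hv) (apply_nonneg v _)
        exact (map_eq_zero v).1 h3
    apply Finset.sum_eq_zero
    intro j _
    rw [h1 j, map_zero, zero_mul]
  let σ : K →+* ℂ := v.embedding
  have hσ : ∀ z, ‖σ z‖ = v z := fun z => InfinitePlace.norm_embedding_eq v z
  let _ : Algebra K ℂ := σ.toAlgebra
  let τ : AlgebraicClosure K →ₐ[K] ℂ := IsAlgClosed.lift
  have hτ : ∀ z : K, τ (algebraMap K (AlgebraicClosure K) z) = σ z := fun z => τ.commutes z
  have hvi : 0 < v (a i) := InfinitePlace.pos_iff.2 hai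
  have hσi : σ (a i) ≠ 0 := (_root_.map_ne_zero σ).2 hai
  -- the largest conjugate
  have hint : IsIntegral K (α i) := Algebra.IsIntegral.isIntegral _
  let S : Finset (AlgebraicClosure K) := ((minpoly K (α i)).rootSet (AlgebraicClosure K)).toFinset
  have hS : ∀ x, x ∈ S ↔ minpoly K (α i) = minpoly K x := by
    intro x
    rw [Set.mem_toFinset]
    constructor
    · intro hx
      exact (isConjRoot_iff_mem_minpoly_rootSet hint).2 hx
    · intro hx
      exact (isConjRoot_iff_mem_minpoly_rootSet hint).1 hx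
  obtain ⟨β, hβS, hmax⟩ := Finset.exists_max_image S (fun x => ‖τ x‖) ⟨α i, (hS _).2 rfl⟩
  have hgex : ∀ x ∈ S, ∃ g : Gal(AlgebraicClosure K/K), g (α i) = x := fun x hx =>
    IsConjRoot.exists_algEquiv (K := K) (x := x) (y := α i) ((hS x).1 hx).symm
  have hgS : ∀ (g : Gal(AlgebraicClosure K/K)) j, g (α j) ∈ S := by
    intro g j
    rw [hS, minpoly.algEquiv_eq, hα i j]
  have hx0 : ∀ x ∈ S, x ≠ 0 := by
    intro x hx
    obtain ⟨g, rfl⟩ := hgex x hx
    exact (_root_.map_ne_zero g).2 (hα0 i)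
  -- alignment
  have hal : ∀ x ∈ S, ‖τ x‖ = ‖τ β‖ → ∀ g : Gal(AlgebraicClosure K/K), g (α i) = x →
      ∀ j, j ≠ i → σ (a j) * τ (g (α j)) = ((v (a j) / v (a i) : ℝ) : ℂ) * (-(σ (a i) * τ x)) := by
    intro x hx hxn g hg j hj
    have hτx : τ x ≠ 0 := (_root_.map_ne_zero τ).2 (hx0 x hx)
    have h1 := congrArg (fun y => τ (g y)) hsum
    simp only [map_sum, map_zero, map_mul, AlgEquiv.commutes, hτ] at h1
    rw [← Finset.add_sum_erase _ _ (mem_univ i), hg] at h1
    refine align (univ.erase i) (fun j => σ (a j) * τ (g (α j))) (fun j => v (a j) / v (a i))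
      (-(σ (a i) * τ x)) (neg_ne_zero.2 (mul_ne_zero hσi hτx)) (eq_neg_of_add_eq_zero_right h1)
      ?_ ?_ j (Finset.mem_erase.2 ⟨hj, mem_univ j⟩)
    · intro k hk
      rw [norm_mul, norm_neg, norm_mul, hσ, hσ, ← mul_assoc, div_mul_cancel₀ _ hvi.ne', hxn]
      exact mul_le_mul_of_nonneg_left (hmax _ (hgS g k)) (apply_nonneg v _)
    · rw [← Finset.sum_div]
      exact (div_le_one hvi).2 hv
  obtain ⟨g, hg⟩ := hgex β hβS
  refine ⟨fun j => if a j = 0 then 1 else g (α j) / g (α i), fun j => ?_, ?_⟩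
  · by_cases haj : a j = 0
    · simp only [if_pos haj]
      exact ⟨1, one_pos, one_pow _⟩
    simp only [if_neg haj]
    by_cases hji : j = i
    · refine ⟨1, one_pos, ?_⟩
      rw [hji, div_self, one_pow]
      rw [hg]; exact hx0 β hβS
    set U : ℂ := ((v (a j) / v (a i) : ℝ) : ℂ) * (-(σ (a i) / σ (a j))) with hU
    have hσj : σ (a j) ≠ 0 := (_root_.map_ne_zero σ).2 haj
    have hvj : 0 < v (a j) := InfinitePlace.pos_iff.2 haj
    have hUn : ‖U‖ = 1 := by
      rw [hU, norm_mul, norm_neg, norm_div, hσ, hσ, Complex.norm_real, Real.norm_eq_abs,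
        abs_of_pos (div_pos hvj hvi)]
      field_simp
    have hstep : ∀ x ∈ S, ‖τ x‖ = ‖τ β‖ → ∀ g : Gal(AlgebraicClosure K/K), g (α i) = x →
        τ (g (α j)) = U * τ x := by
      intro x hx hxn g hg
      have h1 := hal x hx hxn g hg j hji
      apply mul_left_cancel₀ hσj
      rw [h1, hU]
      field_simp
    have hiter : ∀ k : ℕ, ∃ y ∈ S, ‖τ y‖ = ‖τ β‖ ∧ τ y = U ^ k * τ β := by
      intro k
      induction k with
      | zero => exact ⟨β, hβS, rfl, by rw [pow_zero, one_mul]⟩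
      | succ k ih =>
        obtain ⟨y, hy, hyn, hyk⟩ := ih
        obtain ⟨g', hg'⟩ := hgex y hy
        have h1 := hstep y hy hyn g' hg'
        refine ⟨g' (α j), hgS g' j, ?_, ?_⟩
        · rw [h1, norm_mul, hUn, one_mul, hyn]
        · rw [h1, hyk, pow_succ]; ring
    choose y hyS hyn hyk using hiter
    obtain ⟨k, l, hkl, hkleq⟩ : ∃ k l : ℕ, k < l ∧ y k = y l := by
      have hfin : Finite S := inferInstance
      obtain ⟨k, l, hne, h⟩ := Finite.exists_ne_map_eq_of_infinite
        (fun k : ℕ => (⟨y k, hyS k⟩ : S))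
      have h' : y k = y l := congrArg Subtype.val h
      rcases lt_or_gt_of_ne hne with h1 | h1
      · exact ⟨k, l, h1, h'⟩
      · exact ⟨l, k, h1, h'.symm⟩
    have hτβ : τ β ≠ 0 := (_root_.map_ne_zero τ).2 (hx0 β hβS)
    have hU0 : U ≠ 0 := by
      intro h0
      rw [h0, norm_zero] at hUn
      exact zero_ne_one hUn
    have hpow : U ^ (l - k) = 1 := by
      have h1 : U ^ k * τ β = U ^ l * τ β := by rw [← hyk, ← hyk, hkleq]
      have h2 := mul_right_cancel₀ hτβ h1
      have h3 : U ^ k * U ^ (l - k) = U ^ k * 1 := by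
        rw [← pow_add, Nat.add_sub_cancel' hkl.le, mul_one, h2]
      exact mul_left_cancel₀ (pow_ne_zero _ hU0) h3
    refine ⟨l - k, by omega, ?_⟩
    have key : τ ((g (α j) / g (α i)) ^ (l - k)) = τ 1 := by
      rw [map_pow, map_div₀, map_one, hstep β hβS rfl g hg, hg, mul_div_assoc, div_self hτβ,
        mul_one, hpow]
    exact τ.toRingHom.injective key
  · have h1 : ∑ j, algebraMap K (AlgebraicClosure K) (a j) *
        (if a j = 0 then 1 else g (α j) / g (α i)) =
        (∑ j, algebraMap K (AlgebraicClosure K) (a j) * g (α j)) / g (α i) := by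
      rw [Finset.sum_div]
      apply Finset.sum_congr rfl
      intro j _
      split_ifs with h
      · rw [h, map_zero]; simp
      · rw [mul_div_assoc]
    rw [h1]
    have h2 := congrArg g hsum
    rw [map_sum, map_zero] at h2
    simp only [map_mul, AlgEquiv.commutes] at h2
    rw [h2, zero_div]

end conj

end Pool.Agent.R331.SM
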