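import Mathlib

set_option autoImplicit false

namespace Pool.Agent.R331.SM

universe u

variable {R : Type*} {M : Type u} [CommRing R] [AddCommGroup M] [Module R M]

/-- A subsemigroup of `M` which is stable under `S` and does not contain zero. -/
structure Cone (S : Set R) (Q : Set M) : Prop where
  add : ∀ x ∈ Q, ∀ y ∈ Q, x + y ∈ Q
  smul : ∀ s ∈ S, ∀ x ∈ Q, s • x ∈ Q
  zero : (0 : M) ∉ Q

theorem exists_max {S : Set R} {P : Set M} (hP : Cone S P) :
    ∃ Q, P ⊆ Q ∧ Cone S Q ∧ ∀ Q', Q ⊆ Q' → Cone S Q' → Q' ⊆ Q := by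
  obtain ⟨Q, hPQ, hQ⟩ := zorn_subset_nonempty {Q : Set M | Cone S Q} (by
    intro c hc hchain hne
    refine ⟨⋃₀ c, ?_, fun s hs => Set.subset_sUnion_of_mem hs⟩
    refine ⟨?_, ?_, ?_⟩
    · rintro x ⟨A, hA, hx⟩ y ⟨B, hB, hy⟩
      rcases hchain.total hA hB with h | h
      · exact ⟨B, hB, (hc hB).add x (h hx) y hy⟩
      · exact ⟨A, hA, (hc hA).add x hx y (h hy)⟩
    · rintro s hs x ⟨A, hA, hx⟩
      exact ⟨A, hA, (hc hA).smul s hs x hx⟩
    · rintro ⟨A, hA, hx⟩
      exact (hc hA).zero hx) P hP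
  refine ⟨Q, hPQ, hQ.prop, fun Q' h1 h2 => hQ.le_of_ge h2 h1⟩

/-- Trichotomy for a maximal cone. -/
theorem trich {S : Set R} (hone : (1 : R) ∈ S) (hadd : ∀ s ∈ S, ∀ t ∈ S, s + t ∈ S)
    (hmul : ∀ s ∈ S, ∀ t ∈ S, s * t ∈ S) {Q : Set M} (hQ : Cone S Q)
    (hmax : ∀ Q', Q ⊆ Q' → Cone S Q' → Q' ⊆ Q) (m : M) :
    m ∈ Q ∨ -m ∈ Q ∨ ∃ s ∈ S, s • m = 0 := by
  have T1 : ∀ m : M, m ∈ Q ∨ (∃ s ∈ S, -(s • m) ∈ Q) ∨ ∃ s ∈ S, s • m = 0 := by
    intro m
    by_contra hcon
    push Not at hcon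
    obtain ⟨h1, h2, h3⟩ := hcon
    set Q' : Set M := {x | x ∈ Q ∨ (∃ s ∈ S, x = s • m) ∨ ∃ s ∈ S, ∃ q ∈ Q, x = s • m + q}
      with hQ'
    have hc : Cone S Q' := by
      refine ⟨?_, ?_, ?_⟩
      · rintro x (hx | ⟨s, hs, rfl⟩ | ⟨s, hs, q, hq, rfl⟩) y
          (hy | ⟨t, ht, rfl⟩ | ⟨t, ht, q', hq', rfl⟩)
        · exact Or.inl (hQ.add x hx y hy)
        · exact Or.inr (Or.inr ⟨t, ht, x, hx, by abel⟩)
        · exact Or.inr (Or.inr ⟨t, ht, x + q', hQ.add x hx q' hq', by abel⟩)
        · exact Or.inr (Or.inr ⟨s, hs, y, hy, rfl⟩)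
        · exact Or.inr (Or.inl ⟨s + t, hadd s hs t ht, by rw [add_smul]⟩)
        · exact Or.inr (Or.inr ⟨s + t, hadd s hs t ht, q', hq', by rw [add_smul]; abel⟩)
        · exact Or.inr (Or.inr ⟨s, hs, q + y, hQ.add q hq y hy, by abel⟩)
        · exact Or.inr (Or.inr ⟨s + t, hadd s hs t ht, q, hq, by rw [add_smul]; abel⟩)
        · exact Or.inr (Or.inr ⟨s + t, hadd s hs t ht, q + q', hQ.add q hq q' hq',
            by rw [add_smul]; abel⟩)
      · rintro s hs x (hx | ⟨t, ht, rfl⟩ | ⟨t, ht, q, hq, rfl⟩)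
        · exact Or.inl (hQ.smul s hs x hx)
        · exact Or.inr (Or.inl ⟨s * t, hmul s hs t ht, by rw [mul_smul]⟩)
        · exact Or.inr (Or.inr ⟨s * t, hmul s hs t ht, s • q, hQ.smul s hs q hq,
            by rw [smul_add, mul_smul]⟩)
      · rintro (h | ⟨s, hs, h⟩ | ⟨s, hs, q, hq, h⟩)
        · exact hQ.zero h
        · exact h3 s hs h.symm
        · refine h2 s hs ?_
          have : -(s • m) = q := by
            rw [neg_eq_iff_add_eq_zero]; exact h.symm
          rw [this]; exact hq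
    have hsub : Q ⊆ Q' := fun x hx => Or.inl hx
    refine h1 (hmax Q' hsub hc ?_)
    exact Or.inr (Or.inl ⟨1, hone, by rw [one_smul]⟩)
  have T2 : ∀ m : M, ∀ s ∈ S, s • m ∈ Q → m ∈ Q := by
    intro m s hs hsm
    rcases T1 m with h | ⟨t, ht, h⟩ | ⟨t, ht, h⟩
    · exact h
    · exfalso
      have h1 := hQ.smul t ht _ hsm
      have h2 := hQ.smul s hs _ h
      have h3 := hQ.add _ h1 _ h2
      rw [smul_neg, smul_smul, smul_smul, mul_comm t s, add_neg_cancel] at h3
      exact hQ.zero h3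
    · exfalso
      have h1 := hQ.smul t ht _ hsm
      rw [smul_smul, mul_comm, ← smul_smul, h, smul_zero] at h1
      exact hQ.zero h1
  rcases T1 m with h | ⟨t, ht, h⟩ | h
  · exact Or.inl h
  · refine Or.inr (Or.inl (T2 (-m) t ht ?_))
    rwa [smul_neg]
  · exact Or.inr (Or.inr h)

/-- The submodule of the elements killed by an element of `S`. -/
def tors (M : Type u) [AddCommGroup M] [Module R M] (S : Set R)
    (hone : (1 : R) ∈ S) (hmul : ∀ s ∈ S, ∀ t ∈ S, s * t ∈ S) :
    Submodule R M where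
  carrier := {m | ∃ s ∈ S, s • m = 0}
  add_mem' := by
    rintro a b ⟨s, hs, ha⟩ ⟨t, ht, hb⟩
    refine ⟨s * t, hmul s hs t ht, ?_⟩
    rw [smul_add, mul_comm s t, mul_smul, ha, smul_zero, mul_comm t s, mul_smul, hb, smul_zero,
      add_zero]
  zero_mem' := ⟨1, hone, smul_zero _⟩
  smul_mem' := by
    rintro c x ⟨s, hs, hx⟩
    exact ⟨s, hs, by rw [smul_smul, mul_comm, ← smul_smul, hx, smul_zero]⟩

/-- A module with an `S`-stable cone not containing zero maps to a linearly ordered module. -/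
theorem exists_order (S : Set R) (hone : (1 : R) ∈ S) (hadd : ∀ s ∈ S, ∀ t ∈ S, s + t ∈ S)
    (hmul : ∀ s ∈ S, ∀ t ∈ S, s * t ∈ S) {P : Set M} (hP : Cone S P) :
    ∃ (N : Type u) (_ : AddCommGroup N) (_ : LinearOrder N) (_ : IsOrderedAddMonoid N)
      (_ : Module R N) (φ : M →ₗ[R] N), (∀ p ∈ P, 0 < φ p) ∧ ∀ s ∈ S, ∀ x : N, 0 < x → 0 < s • x := by
  classical
  obtain ⟨Q, hPQ, hQ, hmax⟩ := exists_max hP
  have htri := trich hone hadd hmul hQ hmax
  set T := tors M S hone hmul with hT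
  let N := M ⧸ T
  -- the positive cone
  have key : ∀ x ∈ Q, ∀ t ∈ T, x + t ∈ Q := by
    intro x hx t ht
    obtain ⟨s, hs, hst⟩ := ht
    rcases htri (x + t) with h | h | ⟨r, hr, h⟩
    · exact h
    · exfalso
      have h1 := hQ.smul s hs _ h
      have h2 := hQ.smul s hs _ hx
      have h3 := hQ.add _ h1 _ h2
      rw [smul_neg, smul_add, hst, add_zero, neg_add_cancel] at h3
      exact hQ.zero h3
    · exfalso
      have h1 := hQ.smul r hr _ (hQ.smul s hs _ hx)
      have h2 : r • s • x = 0 := by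
        have : s • r • (x + t) = 0 := by rw [h, smul_zero]
        rw [smul_add, smul_add, smul_comm s r t, hst, smul_zero, add_zero, smul_comm] at this
        exact this
      rw [h2] at h1
      exact hQ.zero h1
  let C : AddGroupCone N :=
    { carrier := {y | ∃ x ∈ Q ∪ (T : Set M), T.mkQ x = y}
      add_mem' := by
        rintro a b ⟨x, hx, rfl⟩ ⟨y, hy, rfl⟩
        refine ⟨x + y, ?_, map_add _ _ _⟩
        rcases hx with hx | hx <;> rcases hy with hy | hy
        · exact Or.inl (hQ.add x hx y hy)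
        · exact Or.inl (key x hx y hy)
        · exact Or.inl (by rw [add_comm]; exact key y hy x hx)
        · exact Or.inr (T.add_mem hx hy)
      zero_mem' := ⟨0, Or.inr T.zero_mem, map_zero _⟩
      eq_zero_of_mem_of_neg_mem' := by
        rintro a ⟨x, hx, rfl⟩ ⟨y, hy, hyx⟩
        have h1 : x + y ∈ T := by
          rw [← Submodule.Quotient.mk_eq_zero, ← Submodule.mkQ_apply, map_add, hyx, add_neg_cancel]
        rcases hx with hx | hx
        · exfalso
          rcases hy with hy | hy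
          · obtain ⟨s, hs, h⟩ := h1
            have := hQ.smul s hs _ (hQ.add x hx y hy)
            rw [h] at this
            exact hQ.zero this
          · have h2 : x ∈ T := by
              have := T.sub_mem h1 hy
              rwa [add_sub_cancel_right] at this
            obtain ⟨s, hs, h⟩ := h2
            have := hQ.smul s hs _ hx
            rw [h] at this
            exact hQ.zero this
        · rw [Submodule.mkQ_apply, Submodule.Quotient.mk_eq_zero]; exact hx }
  have hCmem : ∀ x : M, T.mkQ x ∈ C ↔ x ∈ Q ∨ x ∈ T := by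
    intro x
    constructor
    · rintro ⟨y, hy, hyx⟩
      have h1 : x - y ∈ T := by
        rw [← Submodule.Quotient.mk_eq_zero, ← Submodule.mkQ_apply, map_sub, hyx, sub_self]
      rcases hy with hy | hy
      · left
        have := key y hy (x - y) h1
        rwa [add_sub_cancel] at this
      · right
        have := T.add_mem hy h1
        rwa [add_sub_cancel] at this
    · intro h
      exact ⟨x, h, rfl⟩
  haveI : HasMemOrNegMem C := by
    refine ⟨fun a => ?_⟩
    obtain ⟨x, rfl⟩ := T.mkQ_surjective a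
    rcases htri x with h | h | h
    · exact Or.inl ((hCmem x).2 (Or.inl h))
    · right
      rw [← map_neg]
      exact (hCmem (-x)).2 (Or.inl h)
    · exact Or.inl ((hCmem x).2 (Or.inr h))
  letI : LinearOrder N := LinearOrder.mkOfAddGroupCone C
  haveI : IsOrderedAddMonoid N := IsOrderedAddMonoid.mkOfCone C
  have hle : ∀ a b : N, a ≤ b ↔ b - a ∈ C := fun a b => Iff.rfl
  have hpos : ∀ x : M, 0 < T.mkQ x ↔ x ∈ Q := by
    intro x
    constructor
    · intro h
      have h1 : T.mkQ x ∈ C := by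
        have := (hle 0 (T.mkQ x)).1 h.le
        rwa [sub_zero] at this
      rcases (hCmem x).1 h1 with h2 | h2
      · exact h2
      · exfalso
        have : T.mkQ x = 0 := by
          rw [Submodule.mkQ_apply, Submodule.Quotient.mk_eq_zero]; exact h2
        rw [this] at h
        exact lt_irrefl _ h
    · intro h
      have h1 : T.mkQ x ∈ C := (hCmem x).2 (Or.inl h)
      refine lt_of_le_of_ne ?_ ?_
      · rw [hle, sub_zero]; exact h1
      · intro h0
        have h2 : x ∈ T := by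
          rw [← Submodule.Quotient.mk_eq_zero, ← Submodule.mkQ_apply, ← h0]
        obtain ⟨s, hs, hsx⟩ := h2
        have := hQ.smul s hs _ h
        rw [hsx] at this
        exact hQ.zero this
  refine ⟨N, inferInstance, inferInstance, inferInstance, inferInstance, T.mkQ, ?_, ?_⟩
  · intro p hp
    exact (hpos p).2 (hPQ hp)
  · intro s hs x hx
    obtain ⟨y, rfl⟩ := T.mkQ_surjective x
    rw [← map_smul]
    exact (hpos _).2 (hQ.smul s hs y ((hpos y).1 hx))

end Pool.Agent.R331.SM
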