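import Mathlib
import Pool.Agent.R331.SM.Contra4
import Pool.Agent.R331.SM.Marg

set_option autoImplicit false

namespace Pool.Agent.R331.SM

open IsDedekindDomain NumberField Finset

variable {K : Type} [Field K]

/-- The action of the field on a module over the group ring. -/
noncomputable def actOf (K : Type) [Field K] (N : Type) [AddCommGroup N] [Module (GR K) N] (x : K) :
    N →+ N :=
  AddMonoidHom.mk' (fun y => mon x • y) (fun y z => smul_add _ _ _)

lemma actOf_apply {N : Type} [AddCommGroup N] [Module (GR K) N] (x : K) (y : N) :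
    actOf K N x y = mon x • y := rfl

lemma mon_one : mon (1 : K) = 1 := by
  rw [← Units.val_one, mon_unit, map_one]

lemma actOf_act {N : Type} [AddCommGroup N] [LinearOrder N] [IsOrderedAddMonoid N]
    [Module (GR K) N] (h : ∀ γ : Kˣ, ∀ y : N, 0 < y → 0 < MonoidAlgebra.of ℤ Kˣ γ • y) :
    Act (actOf K N) where
  zero y := by rw [actOf_apply, mon_zero, zero_smul]
  one y := by rw [actOf_apply, mon_one, one_smul]
  mul x y z := by rw [actOf_apply, actOf_apply, actOf_apply, mon_mul, mul_smul]
  pos x hx y hy := by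
    obtain ⟨u, rfl⟩ : ∃ u : Kˣ, (u : K) = x := ⟨Units.mk0 x hx, rfl⟩
    rw [actOf_apply, mon_unit]
    exact h u y hy

theorem perm_of_local [NumberField K] {n : ℕ} (a : Fin n → K)
    (harch : ∀ v : InfinitePlace K, ∀ i, v (a i) < ∑ j ∈ univ.erase i, v (a j))
    (hnon : ∀ p : HeightOneSpectrum (𝓞 K), ∀ i, ∃ j, j ≠ i ∧
      p.valuation K (a i) ≤ p.valuation K (a j)) :
    ∃ (N : ℕ) (π : Fin n → Equiv.Perm (Fin N)) (v : Fin N → K), v ≠ 0 ∧
      ∀ k, ∑ i, a i * v (π i k) = 0 := by
  classical
  rcases Nat.eq_zero_or_pos n with hn0 | hn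
  · subst hn0
    exact ⟨1, fun i => i.elim0, 1, one_ne_zero, fun k => by simp⟩
  rcases order_or_perm a with h | ⟨N, i1, i2, i3, i4, e, hsum, hpos, hact⟩
  · exact h
  exfalso
  have hA : Act (actOf K N) := actOf_act hact
  have hpos' : ∀ x : Fin n → K, x ≠ 0 → ∑ i, a i * x i = 0 →
      0 < ∑ i, actOf K N (x i) (e i) := hpos
  have c1 : ∀ i, a i = 0 → 0 < e i := by
    intro i hi
    have h := hpos' (Pi.single i 1) (by
      intro h0
      have := congrFun h0 i
      rw [Pi.single_eq_same] at this
      exact one_ne_zero this) (by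
      rw [Finset.sum_eq_single i]
      · rw [hi, zero_mul]
      · intro j _ hj
        rw [Pi.single_eq_of_ne hj, mul_zero]
      · intro h; exact absurd (mem_univ _) h)
    rw [Finset.sum_eq_single i] at h
    · rwa [Pi.single_eq_same, hA.one] at h
    · intro j _ hj
      rw [Pi.single_eq_of_ne hj, hA.zero]
    · intro h; exact absurd (mem_univ _) h
  have c2 : ∀ i j, i ≠ j → e i ≤ 0 → 0 < e j := by
    intro i j hij hi
    by_contra hj
    push Not at hj
    have hai : a i ≠ 0 := fun h => absurd (c1 i h) (not_lt.2 hi)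
    have haj : a j ≠ 0 := fun h => absurd (c1 j h) (not_lt.2 hj)
    have hk : (Pi.single i (a j) + Pi.single j (-a i) : Fin n → K) i = a j := by
      rw [Pi.add_apply, Pi.single_eq_same, Pi.single_eq_of_ne hij, add_zero]
    have hl : (Pi.single i (a j) + Pi.single j (-a i) : Fin n → K) j = - a i := by
      rw [Pi.add_apply, Pi.single_eq_same, Pi.single_eq_of_ne hij.symm, zero_add]
    have h := hpos' (Pi.single i (a j) + Pi.single j (-a i)) (by
      intro h0
      apply haj
      rw [h0] at hk
      exact hk.symm) (by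
      rw [← Finset.sum_subset (Finset.subset_univ ({i, j} : Finset (Fin n))),
        Finset.sum_pair hij, hk, hl]
      · ring
      · intro m _ hm
        rw [Finset.mem_insert, Finset.mem_singleton, not_or] at hm
        rw [Pi.add_apply, Pi.single_eq_of_ne hm.1, Pi.single_eq_of_ne hm.2, add_zero, mul_zero])
    rw [← Finset.sum_subset (Finset.subset_univ ({i, j} : Finset (Fin n))),
        Finset.sum_pair hij, hk, hl] at h
    · have h1 := hA.le (a j) hi
      have h2 := hA.le (-a i) hj
      rw [map_zero] at h1 h2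
      exact absurd h (not_lt.2 (add_nonpos h1 h2))
    · intro m _ hm
      rw [Finset.mem_insert, Finset.mem_singleton, not_or] at hm
      rw [Pi.add_apply, Pi.single_eq_of_ne hm.1, Pi.single_eq_of_ne hm.2, add_zero, hA.zero]
  obtain ⟨i0, hi0⟩ : ∃ i0, e i0 ≤ 0 := by
    by_contra hall
    push Not at hall
    have : 0 < ∑ i, e i := Finset.sum_pos (fun i _ => hall i) ⟨⟨0, hn⟩, mem_univ _⟩
    rw [hsum] at this
    exact absurd this (lt_irrefl _)
  have ha0 : a i0 ≠ 0 := fun h => absurd (c1 i0 h) (not_lt.2 hi0)
  have hu : ∀ j : {j // j ≠ i0}, 0 < e j := fun j => c2 i0 j (fun h => j.2 h.symm) hi0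
  have hsplit : ∀ {M : Type} [AddCommMonoid M] (f : Fin n → M),
      ∑ i, f i = f i0 + ∑ j : {j // j ≠ i0}, f j := fun f =>
    Fintype.sum_eq_add_sum_subtype_ne f i0
  have hg : e i0 = -∑ j : {j // j ≠ i0}, e j := by
    rw [hsplit e] at hsum
    exact eq_neg_of_add_eq_zero_left hsum
  have harch' : ∀ v : InfinitePlace K, 1 < ∑ j : {j // j ≠ i0}, v (a j / a i0) := by
    intro v
    have h1 := harch v i0
    have h2 : ∑ j ∈ univ.erase i0, v (a j) = ∑ j : {j // j ≠ i0}, v (a j) := by
      have h3 := Finset.add_sum_erase univ (fun j => v (a j)) (mem_univ i0)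
      rw [hsplit (fun j => v (a j))] at h3
      exact add_left_cancel h3
    rw [h2] at h1
    have h4 : 0 < v (a i0) := InfinitePlace.pos_iff.2 ha0
    simp only [map_div₀]
    rw [← Finset.sum_div]
    exact (one_lt_div h4).2 h1
  have D : Data (actOf K N) (fun j : {j // j ≠ i0} => a j / a i0) (fun j => e j) := by
    refine ⟨hA, hu, ?_, ?_⟩
    · intro z hz
      set w := ∑ j : {j // j ≠ i0}, a j / a i0 * z j with hw
      let x : Fin n → K := fun i => if h : i = i0 then -w else z ⟨i, h⟩
      have hx0 : x i0 = -w := by simp [x]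
      have hxj : ∀ j : {j // j ≠ i0}, x j = z j := fun j => by
        simp only [x, dif_neg j.2]
      have h := hpos' x (by
        intro h0
        apply hz
        funext j
        rw [← hxj j, h0]
        rfl) (by
        rw [hsplit (fun i => a i * x i), hx0]
        simp only [hxj]
        rw [hw, mul_neg, Finset.mul_sum, neg_add_eq_zero]
        apply Finset.sum_congr rfl
        intro j _
        rw [← mul_assoc, mul_div_cancel₀ _ ha0])
      rw [hsplit (fun i => actOf K N (x i) (e i)), hx0] at h
      simp only [hxj] at h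
      rw [hA.neg, hg, map_neg, neg_add_eq_sub] at h
      exact sub_pos.1 h
    · let v : InfinitePlace K := Classical.arbitrary _
      obtain ⟨k, hk⟩ : ∃ k : {j // j ≠ i0}, a k ≠ 0 := by
        by_contra hall
        push Not at hall
        have := harch' v
        simp only [hall, zero_div, map_zero, Finset.sum_const_zero] at this
        norm_num at this
      by_cases hl : ∃ l : {j // j ≠ i0}, k ≠ l ∧ a l ≠ 0
      · obtain ⟨l, hkl, hl⟩ := hl
        exact ⟨k, l, hkl, div_ne_zero hk ha0, div_ne_zero hl ha0⟩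
      · exfalso
        push Not at hl
        have hz : ∀ j : Fin n, j ≠ i0 → j ≠ k → a j = 0 := fun j h1 h2 =>
          hl ⟨j, h1⟩ (fun h => h2 (by rw [h]))
        have h1 := harch v i0
        have h2 := harch v k
        rw [Finset.sum_eq_single (k : Fin n)] at h1
        · rw [Finset.sum_eq_single i0] at h2
          · linarith
          · intro j hj hj2
            rw [hz j hj2 (Finset.ne_of_mem_erase hj), map_zero]
          · intro h
            exact absurd (Finset.mem_erase.2 ⟨fun h => k.2 h.symm, mem_univ _⟩) h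
        · intro j hj hj2
          rw [hz j (Finset.ne_of_mem_erase hj) hj2, map_zero]
        · intro h
          exact absurd (Finset.mem_erase.2 ⟨k.2, mem_univ _⟩) h
  refine D.contra harch' ?_
  intro p
  obtain ⟨j, hj, h⟩ := hnon p i0
  refine ⟨⟨j, hj⟩, ?_⟩
  rw [map_div₀]
  exact (one_le_div₀ ((Valuation.pos_iff _).2 ha0)).2 h

end Pool.Agent.R331.SM
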